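import Pool.Agent.L5helper62.AD.Main

/-!
# Tuples of rational points of a simple abelian variety: near almost every ray all tuples are good

Let `A` be a simple abelian variety over `ℚ` of dimension `n`, `D = End⁰(A)`, `F` a commutative subfield of `D`,
`f = [F : ℚ]`, `p` a prime number, `e_1, …, e_N ∈ A(ℚ)` independent and `s = dim_F (D ⟨e_1, …, e_N⟩)`; if the `e_j` are a
basis of `A(ℚ)` modulo torsion then `N = f s`. An integral `m × N` matrix `v` is good if for all torsion points `t_i` the
closure in `A(ℚ_p)` of the group generated by the `m` points `∑_j v (i, j) e_j + t_i` has the `ℤ_p`-rank `m` (this is what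
the question asks for), and bad otherwise. By the starting result `AlmostAllTuplesH14` at most
`m (2 H + 1) ^ ((m - 1) (N + s))` of the `(2 H + 1) ^ (m N)` matrices with entries of absolute value at most `H` are bad.
Here:

(1) at most `m M ^ ((m - 1) (N + s))` of the `M ^ (m N)` matrices with entries in `S` are bad, for every set `S` of `M`
integers (for example primes, or powers of `2`);
(2) the bad matrices are the integral zeros of finitely many polynomials with integral coefficients of degree at most `m`,
which are not all zero if `(m - 1) s < N` (that is `m ≤ f`, if `N = f s`);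
(3) if `(m - 1) (N + s) < (1 - δ) (m N - 1)` then for almost every real matrix `ξ` **all** the integral matrices at
distance at most `T ^ δ` from `T ξ` are good, for all sufficiently large real numbers `T`; and one null set of matrices `ξ`
is sufficient for all `δ`, all `p`, all `A` and all `e_j`.

Proof. The bad matrices are those for which the logarithms of the points are linearly dependent over `ℚ_p`. A matrix which
is not bad is separated from the bad ones by a determinant with coefficients in `ℚ_p`, linear functions `ℚ_p → ℚ` give
integral polynomials, and by the theorem of Hilbert finitely many are sufficient. So there are only countably many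
possible sets of bad matrices, whatever `A`, `p` and `e_j` are. (3) follows from the bound for the number of bad matrices
in boxes by the lemma of Borel and Cantelli, for the points `T = k ^ (1 / (1 - δ))` of the ray.
-/

set_option autoImplicit false

namespace Pool.Agent.Results.MP_52423f_nt.AlmostEveryDirection

open Module MvPolynomial MeasureTheory Pool.Agent.E8helper40.PC Pool.Agent.E8helper14.PA

/-- The bad integral `m × N` matrices: not for all torsion points `t_i` the closure of the group generated by the
points `∑_j v (i, j) e_j + t_i` has the `ℤ_p`-rank `m`. -/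
def Bad {p : ℕ} [Fact p.Prime] {n : ℕ} (A : SimpleAbelianVariety p n) (m : ℕ) {N : ℕ} (e : Fin N → A.Pts) :
    Set (Fin m × Fin N → ℤ) :=
  {v | ¬ GoodTuple A e fun i j => v (i, j)}

/-- For all primes `p`, simple abelian varieties `A`, commutative subfields `F` of `End⁰(A)` and independent points
`e_j ∈ A(ℚ)`, and all real `δ` in `[0, 1)` with `(m - 1) (N + s) < (1 - δ) (m N - 1)`: for all large real `T` all the
integral matrices at distance at most `T ^ δ` from `T ξ` are good. -/
def GoodDirection (m N : ℕ) (ξ : Fin m × Fin N → ℝ) : Prop :=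
  ∀ (p : ℕ) [Fact p.Prime] (n : ℕ) (A : SimpleAbelianVariety p n) (F : Subfield A.End) (e : Fin N → A.Pts),
    Commutative A F → Independent A e → ∀ δ : ℝ, 0 ≤ δ → δ < 1 →
      (((m - 1) * (N + spanDim A F e) : ℕ) : ℝ) < (1 - δ) * ((m * N : ℕ) - 1) →
        ∃ T₀ : ℝ, ∀ T : ℝ, T₀ ≤ T → ∀ v : Fin m × Fin N → ℤ,
          (∀ i, |(v i : ℝ) - T * ξ i| ≤ T ^ δ) → v ∉ Bad A m e

/-- **Tuples of rational points: arbitrary sets of coefficients, and all tuples near almost every ray.** -/
theorem result (m N : ℕ) :
    (∀ (p : ℕ) [Fact p.Prime] (n : ℕ) (A : SimpleAbelianVariety p n) (F : Subfield A.End)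
      (e : Fin N → A.Pts), Commutative A F → Independent A e →
        (Generates A e → N = degree A F * spanDim A F e) ∧
        (∀ S : Finset ℤ, S.Nonempty →
          {v | v ∈ Bad A m e ∧ ∀ i, v i ∈ S}.ncard ≤ m * S.card ^ ((m - 1) * (N + spanDim A F e))) ∧
        ∃ P : Finset (MvPolynomial (Fin m × Fin N) ℤ), (∀ G ∈ P, G.totalDegree ≤ m) ∧
          Bad A m e = {v | ∀ G ∈ P, eval v G = 0} ∧
          ((m - 1) * spanDim A F e < N → ∃ G ∈ P, G ≠ 0)) ∧
    ∀ᵐ ξ : Fin m × Fin N → ℝ, GoodDirection m N ξ := by
  classical
  refine ⟨fun p _ n A F e hF he => ⟨fun hg => dim_of_generates A F e he hg, fun S hS => ?_, ?_⟩, ?_⟩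
  · refine le_trans ?_ (Pool.Agent.L5helper62.AD.count_grid A F hF (m := m) e he S hS)
    rw [← Set.ncard_coe_finset]
    refine Set.ncard_le_ncard ?_ (Finset.finite_toSet _)
    rintro v ⟨h2, h3⟩
    rw [Finset.coe_filter, Set.mem_ofPred_eq, Fintype.mem_piFinset]
    exact ⟨h3, h2⟩
  · obtain ⟨P, hP, hPB⟩ := Pool.Agent.L5helper62.AD.bad_zer A (m := m) e
    exact ⟨P, hP, hPB, fun h => Pool.Agent.L5helper62.AD.exists_poly A F hF e he h hPB⟩
  · filter_upwards [Pool.Agent.L5helper62.AD.directions m N] with ξ hξ
    intro p _ n A F e hF he δ hδ0 hδ1 hlt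
    obtain ⟨T₀, hT₀⟩ := hξ p n A F e hF he δ hδ0 hδ1 hlt
    exact ⟨T₀, fun T hT v hv hbad => hbad (hT₀ T hT v hv)⟩

end Pool.Agent.Results.MP_52423f_nt.AlmostEveryDirection
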