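import Pool.Agent.L5helper66.PC.OneLine

/-!
# Subgroups of `End⁰(A) P` for abelian varieties with noncommutative endomorphism algebra

Let `A` be a simple abelian variety over `ℚ` of dimension `n`, `D = End⁰(A)`, and `p` a prime number.
The question is whether the closure in `A(ℚ_p)` of a subgroup `L` of `A(ℚ)` of rank `m ≤ n` has the
`ℤ_p`-rank `m`. Here `L` is contained in `D P` for one point `P` (up to torsion), so that
`m ≤ [D : ℚ] ≤ n`. If `D` is commutative the answer is yes for these `L` (`Pool.Agent.E8helper40.PC`);
if it is not, only the bound `m ≤ r ind(D)` for the rank `r` of the closure was known.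

**Theorem.** Let `L` be finitely generated with `dim_D (D L) = 1`, let `r` be the `ℤ_p`-rank of the
closure of `L` and `R` the `ℤ_p`-rank of the closure of the group of all points of `A(ℚ)` in `D L`.

* `min (rank L) 2 ≤ r ≤ min (rank L) R`. So the answer is yes for all `L ⊆ D P` of rank two.
* If `ℚ_p ⊗ D` is a division algebra then `R = [D : ℚ]` and `r = rank L`: the answer is yes for all
`L ⊆ D P`.
* If `D` is a quaternion algebra over `ℚ` then `R = 2` or `R = 4`, and `r = min (rank L) R`. So the
answer is either yes for all subgroups of `D P`, or it is no for all those of rank three or four; one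
subgroup of rank three decides.

The data `SimpleAbelianVariety p n` are those of `Pool.Agent.E8helper40.PC.Defs`.
-/

set_option autoImplicit false

open TensorProduct

namespace Pool.Agent.Results.MP_52423f_nt.NoncommutativeLines

open Module Pool.Agent.E8helper40.PC Pool.Agent.L5helper66.PC

/-- **Subgroups of `End⁰(A) P`.** Let `L` be a finitely generated subgroup of `A(ℚ)` such that
`End⁰(A) L` has dimension one over `D = End⁰(A)`, `r` the `ℤ_p`-rank of the closure of `L`, and `R` the
`ℤ_p`-rank of the closure of the group of all points of `A(ℚ)` in `D L`. Then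
`min (rank L) 2 ≤ r ≤ min (rank L) R`. If `ℚ_p ⊗ D` is a division algebra then `R = [D : ℚ]` and
`r = rank L`. If `D` is a quaternion algebra over `ℚ` (`[D : ℚ] = 4` and `D` is not commutative) then
`R = 2` or `R = 4`, and `r = min (rank L) R`. -/
theorem result {p : ℕ} [Fact p.Prime] {n : ℕ} (A : SimpleAbelianVariety p n)
    (L : AddSubgroup A.Pts) (hL : L.FG) (h1 : finrank A.End (endSpan A L) = 1) (r R : ℕ)
    (hr : HasZpRank p (closure A L) r) (hR : HasZpRank p (closure A (saturation A L)) R) :
    min (rank A L) 2 ≤ r ∧ r ≤ min (rank A L) R ∧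
    ((∀ x : ℚ_[p] ⊗[ℚ] A.End, x ≠ 0 → IsUnit x) → R = finrank ℚ A.End ∧ r = rank A L) ∧
    (finrank ℚ A.End = 4 → (∃ x y : A.End, x * y ≠ y * x) →
      (R = 2 ∨ R = 4) ∧ r = min (rank A L) R) :=
  one_line A hL h1 hr hR

end Pool.Agent.Results.MP_52423f_nt.NoncommutativeLines
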