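import Pool.Agent.L5helper66.PC.PairLower

/-!
# The number of the pairs of rational points with a `p`-adic closure of rank one

Let `A` be a simple abelian variety over `ℚ` with commutative `D = End⁰(A)`, `f = [D : ℚ]`, and `p` a
prime number. Let `e_1, …, e_N ∈ A(ℚ)` be independent points which span a space of dimension two over
`D` (for example a basis of `A(ℚ)` modulo torsion if `dim_D (A(ℚ) ⊗ ℚ) = 2`; then `N = 2 f`).

**Theorem.** The number of the pairs of points `x_1 = ∑ k_j e_j`, `x_2 = ∑ k'_j e_j`, `|k_j| ≤ H`,
`|k'_j| ≤ H`, which are independent, but for which the closure in `A(ℚ_p)` of the group generated by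
`x_1 + t_1` and `x_2 + t_2`, for some torsion points `t_i`, does not have the `ℤ_p`-rank two, is at most
`C H ^ max (4, f) (1 + log H)`. If `N = 2 f` then either there is no such pair at all, or there are at
least `c H ^ max (4, f)` for all large `H`.

There are `(2 H + 1) ^ (4 f)` pairs if `N = 2 f`, and `(2 H + 1) ^ (2 f)` pairs `(x, x)` alone that are
linearly dependent, so the answer to Q1 is yes for all but a very small number of the independent pairs.
The bound that was known for the exceptions (`AlmostAllTuplesH14`, all `D`) is `2 (2 H + 1) ^ (N + 2)`.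

The proof: by the uniqueness theorem `RankOneClosures` all the exceptions are of the form
`x_1, x_2 ∈ δ E`, `δ ∈ D`, for one subspace `E` of dimension two over `ℚ`, so their coordinates form an
integer matrix of rank one with four rows and `f` columns.
-/

set_option autoImplicit false

open TensorProduct

namespace Pool.Agent.Results.MP_52423f_nt.PairExceptionCount

open Module Pool.Agent.E8helper40.PC Pool.Agent.E8helper14.PA Pool.Agent.L5helper66.PC

/-- **The number of the exceptional pairs.** Let `D = End⁰(A)` be commutative, `f = [D : ℚ]`, and let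
`e_1, …, e_N` be independent points of `A(ℚ)` with `dim_D (D ⟨e_1, …, e_N⟩) = 2`. Then the number of the
pairs of independent points `x_i = ∑_j k_ij e_j`, `|k_ij| ≤ H`, such that for some torsion points `t_i`
the closure of the group generated by `x_1 + t_1` and `x_2 + t_2` is not isomorphic to `ℤ_p ^ 2` modulo
finite torsion, is at most `C H ^ max (4, f) (1 + log H)`; and if `N = 2 f` it is either zero for all `H`
or at least `c H ^ max (4, f)` for all large `H`. -/
theorem result {p : ℕ} [Fact p.Prime] {n : ℕ} (A : SimpleAbelianVariety p n)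
    (hcomm : ∀ x y : A.End, x * y = y * x) {N : ℕ} (e : Fin N → A.Pts) (he : Independent A e)
    (hdim : finrank A.End (endSpan A (hull A e)) = 2) :
    (∃ C : ℝ, 0 < C ∧ ∀ H : ℕ, 1 ≤ H → (exceptions A e H : ℝ)
      ≤ C * (H : ℝ) ^ (max 4 (finrank ℚ A.End)) * (1 + Real.log H)) ∧
    (N = 2 * finrank ℚ A.End → (∀ H, exceptions A e H = 0) ∨
      ∃ c : ℝ, 0 < c ∧ ∃ H₀ : ℕ, ∀ H : ℕ, H₀ ≤ H →
        c * (H : ℝ) ^ (max 4 (finrank ℚ A.End)) ≤ exceptions A e H) :=
  ⟨exceptions_le A e hcomm he hdim, exceptions_ge A e hcomm he hdim⟩

end Pool.Agent.Results.MP_52423f_nt.PairExceptionCount
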