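import Pool.Agent.L5helper66.PC.Orbit

/-!
# Subgroups with a `p`-adic closure of rank one: at most one orbit of exceptions

Let `A` be a simple abelian variety over `ℚ` of dimension `n`, `D = End⁰(A)`, and `p` a prime number.
The question is whether the closure in `A(ℚ_p)` of a subgroup `L` of `A(ℚ)` of rank `m ≤ n` has the
`ℤ_p`-rank `m`. For `m = 2` the answer is no for `L` if and only if the closure has the rank one.

**Theorem.** Let `D` be commutative (or let the closure of the group of the points of `D P` have the
`ℤ_p`-rank `[D : ℚ]` for one point `P` of `L`), and let `L` be finitely generated with a closure of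
`ℤ_p`-rank one. Then `rank L = dim_D (D L)`. Let `L'` be finitely generated with `D L' ⊆ D L`. If the
closure of `L'` has rank one, then `rank L' ≤ rank L`. If `rank L' = rank L`, then the closure of `L'`
has rank one if and only if `L' ⊗ ℚ = δ (L ⊗ ℚ)` for some `δ ∈ D`, `δ ≠ 0`.

So in every subspace `W` of `A(ℚ) ⊗ ℚ` over `D` with `dim_D W = 2` the subgroups of rank two with the
`D`-span `W` for which the answer to the question is no form at most one orbit of `D^×` (up to
commensurability); and the subgroups of rank two with a `D`-span of dimension one have a closure of rank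
two. In particular, if `A` is a simple abelian surface, `D` a quadratic field and `rank A(ℚ) ≤ 4`, the
answer to the question is yes for all `L` outside of one orbit of `D^×`.

The proof: if `P_i` is a basis of `L`, with logarithms `c_i w`, and `P'_i = ∑ a_ij P_j` a basis of
`L'`, with logarithms `c'_i w'`, then the rational matrices `a^(l)` of the coordinates of the `a_ij` in a
basis of `D` all map `c` to multiples of `c'`; so the quotients of two of them have the eigenvector `c`,
whose coordinates are linearly independent over the algebraic numbers by the p-adic analytic subgroup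
theorem, and are scalars.

The data `SimpleAbelianVariety p n` are those of `Pool.Agent.E8helper40.PC.Defs`.
-/

set_option autoImplicit false

open TensorProduct

namespace Pool.Agent.Results.MP_52423f_nt.RankOneClosures

open Module Pool.Agent.E8helper40.PC Pool.Agent.L5helper66.PC

/-- **Subgroups with a closure of rank one.** Let `L` be a finitely generated subgroup of `A(ℚ)` whose
closure in `A(ℚ_p)` has the `ℤ_p`-rank one, and which is `Regular` (for example let `End⁰(A)` be
commutative). Then `rank L = dim (End⁰(A) L)`. Let `L'` be a finitely generated subgroup of `A(ℚ)` with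
`End⁰(A) L' ⊆ End⁰(A) L`. If the closure of `L'` has rank one, then `rank L' ≤ rank L`. If
`rank L' = rank L`, the closure of `L'` has rank one if and only if `L' ⊗ ℚ = δ (L ⊗ ℚ)` for some
`δ ≠ 0` in `End⁰(A)`. -/
theorem result {p : ℕ} [Fact p.Prime] {n : ℕ} (A : SimpleAbelianVariety p n)
    (L : AddSubgroup A.Pts) (hL : L.FG) (h1 : HasZpRank p (closure A L) 1) (hreg : Regular A L) :
    rank A L = finrank A.End (endSpan A L) ∧
    ∀ L' : AddSubgroup A.Pts, L'.FG → endSpan A L' ≤ endSpan A L →
      (HasZpRank p (closure A L') 1 → rank A L' ≤ rank A L) ∧
      (rank A L' = rank A L → (HasZpRank p (closure A L') 1 ↔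
        ∃ δ : A.End, δ ≠ 0 ∧ ∀ x, x ∈ ratSpan A L' ↔ ∃ y ∈ ratSpan A L, x = δ • y)) := by
  refine ⟨rank_eq_finrank A hL h1 hreg,
    fun L' hL' hle => ⟨fun h1' => (orbit_unique A hL hL' h1 h1' hreg hle).1,
      fun heq => ⟨fun h1' => (orbit_unique A hL hL' h1 h1' hreg hle).2 heq, ?_⟩⟩⟩
  rintro ⟨δ, hδ, h⟩
  exact rank_one_of_smul A h1 hδ h

end Pool.Agent.Results.MP_52423f_nt.RankOneClosures
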